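import Mathlib
import Pool.Agent.helper68.SF.SpecS

/-!
Project SF, module GAP: the defect of additivity is exponentially small.
-/

set_option autoImplicit false

namespace SF

open Pool.Agent.helper72.Sq

/-- descent to the growing nodes, for a general predicate -/
theorem GAP_aux (Bd : Tri → Prop) (hgr : ∀ P, Gr P → Bd P)
    (hch : ∀ P, Bd (Lm P) → Bd (Rm P) → Bd P) (M0 ρ : ℝ) (hρ0 : 0 < ρ)
    (hρ : ∀ P : Tri, Adm P → P.1 ≤ M0 → P.2.1 ≤ M0 → 2 ≤ ρ * P.1 ∧ 2 ≤ ρ * P.2.1) :
    ∀ n : ℕ, ∀ P : Tri, Adm P → P.1 ≤ M0 → P.2.1 ≤ M0 → P.1 * P.2.1 * ρ ^ n ≤ 4 →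
      Bd P := by
  intro n
  induction n with
  | zero =>
    intro P hP _ _ h4
    exfalso
    have := hP.x2
    have := hP.y2
    nlinarith
  | succ n ih =>
    intro P hP hx hy h4
    have hx2 := hP.x2
    have hy2 := hP.y2
    have hz2 := hP.z2
    have hGood : ∀ Q : Tri, Adm Q → Q.1 * Q.2.1 ≤ 2 * Q.2.2 → Bd Q := by
      intro Q hQ hzQ
      exact hgr Q ⟨hQ.x2, hQ.y2, hQ.kpos, hzQ⟩
    by_cases hz : P.1 * P.2.1 ≤ 2 * P.2.2
    · exact hGood P hP hz
    · push Not at hz
      have hρP := hρ P hP hx hy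
      apply hch
      · by_cases hzL : (Lm P).1 * (Lm P).2.1 ≤ 2 * (Lm P).2.2
        · exact hGood _ hP.L hzL
        · push Not at hzL
          simp only [Lm] at hzL
          have hxz : P.1 * P.2.2 < 2 * P.2.1 := by linarith
          refine ih (Lm P) hP.L hx ?_ ?_
          · simp only [Lm]; nlinarith
          · simp only [Lm]
            refine le_trans ?_ h4
            have : P.1 * P.2.2 ≤ P.1 * P.2.1 * ρ := by nlinarith
            calc P.1 * P.2.2 * ρ ^ n ≤ (P.1 * P.2.1 * ρ) * ρ ^ n := by gcongr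
              _ = _ := by rw [pow_succ]; ring
      · by_cases hzR : (Rm P).1 * (Rm P).2.1 ≤ 2 * (Rm P).2.2
        · exact hGood _ hP.R hzR
        · push Not at hzR
          simp only [Rm] at hzR
          have hyz : P.2.2 * P.2.1 < 2 * P.1 := by linarith
          refine ih (Rm P) hP.R ?_ hy ?_
          · simp only [Rm]; nlinarith
          · simp only [Rm]
            refine le_trans ?_ h4
            have : P.2.2 * P.2.1 ≤ P.1 * P.2.1 * ρ := by nlinarith
            calc P.2.2 * P.2.1 * ρ ^ n ≤ (P.1 * P.2.1 * ρ) * ρ ^ n := by gcongr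
              _ = _ := by rw [pow_succ]; ring

theorem GAP_descent (Bd : Tri → Prop) (hgr : ∀ P, Gr P → Bd P)
    (hch : ∀ P, Bd (Lm P) → Bd (Rm P) → Bd P) (P : Tri) (hP : Adm P) : Bd P := by
  set M0 := max P.1 P.2.1 with hM0
  have hM2 : 2 < M0 := hP.x2.trans_le (le_max_left _ _)
  set ε := 16 / (M0 ^ 2 - 4) with hε
  have hM4 : 0 < M0 ^ 2 - 4 := by nlinarith
  have hε0 : 0 < ε := by rw [hε]; positivity
  set τ := √(4 + ε) with hτ
  have hτ2 : 2 < τ := by
    rw [hτ, show (2 : ℝ) = √4 by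
      rw [show (4 : ℝ) = 2 ^ 2 by norm_num, Real.sqrt_sq (by norm_num)]]
    exact Real.sqrt_lt_sqrt (by norm_num) (by linarith)
  have hleg : ∀ Q : Tri, Adm Q → Q.1 ≤ M0 → Q.2.1 ≤ M0 → τ ≤ Q.1 ∧ τ ≤ Q.2.1 := by
    intro Q hQ hx hy
    have hd := hQ.disc
    have hx2 := hQ.x2
    have hy2 := hQ.y2
    have hx4 : 0 < Q.1 ^ 2 - 4 := by nlinarith
    have hy4 : 0 < Q.2.1 ^ 2 - 4 := by nlinarith
    have hxM : Q.1 ^ 2 - 4 ≤ M0 ^ 2 - 4 := by nlinarith
    have hyM : Q.2.1 ^ 2 - 4 ≤ M0 ^ 2 - 4 := by nlinarith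
    constructor
    · apply Real.sqrt_le_iff.2
      refine ⟨by linarith, ?_⟩
      have : ε ≤ Q.1 ^ 2 - 4 := by
        rw [hε, div_le_iff₀ hM4]
        nlinarith
      linarith
    · apply Real.sqrt_le_iff.2
      refine ⟨by linarith, ?_⟩
      have : ε ≤ Q.2.1 ^ 2 - 4 := by
        rw [hε, div_le_iff₀ hM4]
        nlinarith
      linarith
  have hρ1 : 2 / τ < 1 := by rw [div_lt_one (by linarith)]; exact hτ2
  have hρ0 : 0 < 2 / τ := by positivity
  have hx2 := hP.x2
  have hy2 := hP.y2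
  obtain ⟨n, hn⟩ := exists_pow_lt_of_lt_one (show 0 < 4 / (P.1 * P.2.1) by positivity) hρ1
  refine GAP_aux Bd hgr hch M0 (2 / τ) hρ0 ?_ n P hP (le_max_left _ _) (le_max_right _ _) ?_
  · intro Q hQ hx hy
    obtain ⟨h1, h2⟩ := hleg Q hQ hx hy
    constructor
    · rw [div_mul_eq_mul_div, le_div_iff₀ (by linarith)]; linarith
    · rw [div_mul_eq_mul_div, le_div_iff₀ (by linarith)]; linarith
  · have hpos : 0 < P.1 * P.2.1 := by positivity
    rw [lt_div_iff₀ hpos] at hn
    linarith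

/-- descendants of a growing node are growing, with the same `kap` and legs bounded below -/
theorem GAP_desc : ∀ (w : List Bool) (P : Tri) (t0 : ℝ), Gr P → t0 ≤ P.1 → t0 ≤ P.2.1 →
    Gr (desc w P) ∧ kap (desc w P) = kap P ∧ t0 ≤ (desc w P).1 ∧ t0 ≤ (desc w P).2.1 := by
  intro w
  induction w with
  | nil => intro P t0 h hx hy; exact ⟨h, rfl, hx, hy⟩
  | cons b w ih =>
    intro P t0 h hx hy
    cases b
    · have h1 := ih (Rm P) t0 h.R (hx.trans h.xz) hy
      rw [kap_Rm] at h1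
      exact h1
    · have h1 := ih (Lm P) t0 h.L hx (hy.trans h.yz)
      rw [kap_Lm] at h1
      exact h1

/-- `sinh a ≥ c e^a` for `a ≥ a0` -/
theorem GAP_sinh (a0 a : ℝ) (h : a0 ≤ a) :
    (1 - Real.exp (-2 * a0)) / 2 * Real.exp a ≤ Real.sinh a := by
  rw [Real.sinh_eq]
  have h1 : Real.exp (-a) ≤ Real.exp (-2 * a0) * Real.exp a := by
    rw [← Real.exp_add]
    apply Real.exp_le_exp.2
    linarith
  nlinarith

/-- convexity of `cosh` -/
theorem GAP_cosh (a b : ℝ) (h0 : 0 ≤ b) (h : b ≤ a) :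
    Real.sinh b * (a - b) ≤ Real.cosh a - Real.cosh b := by
  have h1 : a = b + (a - b) := by ring
  have h2 : Real.cosh a = Real.cosh b * Real.cosh (a - b) + Real.sinh b * Real.sinh (a - b) := by
    conv_lhs => rw [h1, Real.cosh_add]
  have h3 : 1 ≤ Real.cosh (a - b) := Real.one_le_cosh _
  have h4 : a - b ≤ Real.sinh (a - b) := Real.self_le_sinh_iff.2 (by linarith)
  have h5 : 0 ≤ Real.sinh b := Real.sinh_nonneg_iff.2 h0
  have h6 : 0 < Real.cosh b := Real.cosh_pos b
  rw [h2]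
  nlinarith

/-- the estimate at growing nodes -/
theorem GAP_gr (t0 k : ℝ) (ht0 : 2 < t0) (hk : 0 ≤ k) : ∃ C : ℝ, 0 < C ∧ ∀ P : Tri, Gr P →
    kap P ≤ k → t0 ≤ P.1 → t0 ≤ P.2.1 → |LL P - len P.2.2| ≤ C * Real.exp (-LL P) := by
  set l0 := len t0 with hl0
  have hl0p : 0 < l0 := len_pos ht0
  set c0 := (1 - Real.exp (-2 * (l0 / 2))) / 2 with hc0
  have hc0p : 0 < c0 := by
    have : Real.exp (-2 * (l0 / 2)) < 1 := by
      rw [← Real.exp_zero]
      apply Real.exp_lt_exp.2
      linarith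
    rw [hc0]
    linarith
  refine ⟨(k + 4) / c0 ^ 3 * 4, by positivity, ?_⟩
  intro P hP hkP hx hy
  have hx2 := hP.x2
  have hy2 := hP.y2
  have hz2 := hP.z2
  set a := len P.1 / 2 with ha
  set b := len P.2.1 / 2 with hb
  set m := len P.2.2 / 2 with hm
  have ha0 : l0 / 2 ≤ a := by
    have := len_mono ht0.le hx
    rw [ha]; linarith
  have hb0 : l0 / 2 ≤ b := by
    have := len_mono ht0.le hy
    rw [hb]; linarith
  have hm0 : l0 / 2 ≤ m := by
    have := len_mono ht0.le (hx.trans hP.xz)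
    rw [hm]; linarith
  have hle : len P.2.2 ≤ len P.1 + len P.2.1 := Gr.len_z_le hP
  have hmle : m ≤ a + b := by rw [ha, hb, hm]; linarith
  have hLL : LL P = 2 * (a + b) := by rw [LL, ha, hb]; ring
  -- deficit at most log 4
  have hdef : a + b - m ≤ Real.log 4 := by
    have h1 := len_le_two_log hx2.le
    have h2 := len_le_two_log hy2.le
    have h3 := two_log_le_len hz2.le
    have h4 : Real.log (P.1 * P.2.1 / 4) ≤ Real.log (P.2.2 / 2) := by
      apply Real.log_le_log
      · have : 0 < P.1 * P.2.1 := by positivity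
        linarith
      · linarith [hP.zbig]
    rw [Real.log_div (by positivity) (by norm_num), Real.log_mul (by linarith) (by linarith)] at h4
    rw [ha, hb, hm]
    linarith
  -- the main identity
  have hid := main_ident P hx2.le hy2.le
  have hca : Real.cosh a = P.1 / 2 := cosh_half_len hx2.le
  have hcb : Real.cosh b = P.2.1 / 2 := cosh_half_len hy2.le
  have hcm : Real.cosh m = P.2.2 / 2 := cosh_half_len hz2.le
  have hsa : c0 * Real.exp a ≤ Real.sinh a := GAP_sinh (l0 / 2) a ha0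
  have hsb : c0 * Real.exp b ≤ Real.sinh b := GAP_sinh (l0 / 2) b hb0
  have hsm : c0 * Real.exp m ≤ Real.sinh m := GAP_sinh (l0 / 2) m hm0
  have hea := Real.exp_pos a
  have heb := Real.exp_pos b
  have hem := Real.exp_pos m
  -- lower bound for z - 2 cosh (a - b)
  have hlow : 2 * c0 ^ 2 * Real.exp (a + b) ≤ P.2.2 - 2 * Real.cosh (a - b) := by
    have h1 : P.1 * P.2.1 ≤ 2 * P.2.2 := hP.zbig
    have h2 : P.1 = 2 * Real.cosh a := by rw [hca]; ring
    have h3 : P.2.1 = 2 * Real.cosh b := by rw [hcb]; ring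
    rw [h2, h3] at h1
    have h4 : c0 * Real.exp a * (c0 * Real.exp b) ≤ Real.sinh a * Real.sinh b := by
      apply mul_le_mul hsa hsb (by positivity)
      exact (by positivity : (0 : ℝ) ≤ c0 * Real.exp a).trans hsa
    rw [Real.cosh_sub, Real.exp_add]
    nlinarith
  have hlowp : 0 < P.2.2 - 2 * Real.cosh (a - b) := by
    have : 0 < 2 * c0 ^ 2 * Real.exp (a + b) := by positivity
    linarith
  have hup : (2 * Real.cosh (a + b) - P.2.2) * (2 * c0 ^ 2 * Real.exp (a + b)) ≤ k + 4 := by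
    have h1 : 0 ≤ 2 * Real.cosh (a + b) - P.2.2 := by
      have h2 : (2 * Real.cosh (a + b) - P.2.2) * (P.2.2 - 2 * Real.cosh (a - b)) = kap P + 4 := hid
      have h3 : 0 < kap P := hP.kpos
      by_contra hcon
      push Not at hcon
      have := mul_neg_of_neg_of_pos hcon hlowp
      linarith
    calc (2 * Real.cosh (a + b) - P.2.2) * (2 * c0 ^ 2 * Real.exp (a + b))
        ≤ (2 * Real.cosh (a + b) - P.2.2) * (P.2.2 - 2 * Real.cosh (a - b)) :=
          mul_le_mul_of_nonneg_left hlow h1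
      _ = kap P + 4 := hid
      _ ≤ k + 4 := by linarith
  -- convexity
  have hconv := GAP_cosh (a + b) m (by linarith) hmle
  have h5 : Real.cosh (a + b) - Real.cosh m = (2 * Real.cosh (a + b) - P.2.2) / 2 := by
    rw [hcm]; ring
  have h6 : Real.exp (a + b) / 4 ≤ Real.exp m := by
    have h7 : Real.exp (a + b) ≤ Real.exp (Real.log 4) * Real.exp m := by
      rw [← Real.exp_add]
      apply Real.exp_le_exp.2
      linarith
    rw [Real.exp_log (by norm_num)] at h7
    linarith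
  have hd : 0 ≤ a + b - m := by linarith
  have h8 : c0 * (Real.exp (a + b) / 4) * (a + b - m) ≤ (2 * Real.cosh (a + b) - P.2.2) / 2 := by
    rw [← h5]
    refine le_trans ?_ hconv
    apply mul_le_mul_of_nonneg_right _ hd
    exact (mul_le_mul_of_nonneg_left h6 hc0p.le).trans hsm
  have h9 : c0 ^ 3 * (a + b - m) * (Real.exp (a + b) * Real.exp (a + b)) ≤ k + 4 := by
    have he : 0 < Real.exp (a + b) := Real.exp_pos _
    have h10 := mul_le_mul_of_nonneg_right h8 (by positivity : (0 : ℝ) ≤ 2 * (2 * c0 ^ 2 * Real.exp (a + b)))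
    nlinarith
  have h11 : Real.exp (-LL P) * (Real.exp (a + b) * Real.exp (a + b)) = 1 := by
    rw [hLL, ← Real.exp_add, ← Real.exp_add, ← Real.exp_zero]
    congr 1
    ring
  have h12 : LL P - len P.2.2 = 2 * (a + b - m) := by rw [hLL, hm]; ring
  rw [h12, abs_of_nonneg (by linarith)]
  have h13 : c0 ^ 3 * (a + b - m) ≤ (k + 4) * Real.exp (-LL P) := by
    have h14 := mul_le_mul_of_nonneg_right h9 (Real.exp_pos (-LL P)).le
    have h15 : c0 ^ 3 * (a + b - m) * (Real.exp (a + b) * Real.exp (a + b)) * Real.exp (-LL P) =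
        c0 ^ 3 * (a + b - m) := by
      rw [mul_assoc, mul_comm (Real.exp (a + b) * Real.exp (a + b)), h11, mul_one]
    rw [h15] at h14
    exact h14
  have hc3 : 0 < c0 ^ 3 := by positivity
  have h16 : a + b - m ≤ (k + 4) * Real.exp (-LL P) / c0 ^ 3 := by
    rw [le_div_iff₀ hc3]
    linarith
  have h17 : 0 ≤ (k + 4) * Real.exp (-LL P) / c0 ^ 3 := by positivity
  calc 2 * (a + b - m) ≤ 4 * ((k + 4) * Real.exp (-LL P) / c0 ^ 3) := by linarith
    _ = (k + 4) / c0 ^ 3 * 4 * Real.exp (-LL P) := by ring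

theorem GAP : GAP_stmt := by
  intro P hP
  refine GAP_descent (fun P => ∃ C : ℝ, 0 < C ∧ ∀ w : List Bool,
    |LL (desc w P) - len (desc w P).2.2| ≤ C * Real.exp (-LL (desc w P))) ?_ ?_ P hP
  · intro P hP
    have ht0 : 2 < min P.1 P.2.1 := lt_min hP.x2 hP.y2
    obtain ⟨C, hC, h⟩ := GAP_gr (min P.1 P.2.1) (kap P) ht0 hP.kpos.le
    refine ⟨C, hC, fun w => ?_⟩
    obtain ⟨h1, h2, h3, h4⟩ := GAP_desc w P (min P.1 P.2.1) hP (min_le_left _ _) (min_le_right _ _)
    exact h _ h1 h2.le h3 h4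
  · rintro P ⟨C1, hC1, h1⟩ ⟨C2, hC2, h2⟩
    refine ⟨max (max C1 C2) (|LL P - len P.2.2| * Real.exp (LL P)), ?_, ?_⟩
    · exact hC1.trans_le ((le_max_left _ _).trans (le_max_left _ _))
    · intro w
      cases w with
      | nil =>
        show |LL P - len P.2.2| ≤ _ * Real.exp (-LL P)
        have h3 : |LL P - len P.2.2| * Real.exp (LL P) * Real.exp (-LL P) = |LL P - len P.2.2| := by
          rw [mul_assoc, ← Real.exp_add, add_neg_cancel, Real.exp_zero, mul_one]
        calc |LL P - len P.2.2| = |LL P - len P.2.2| * Real.exp (LL P) * Real.exp (-LL P) := h3.symm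
          _ ≤ _ := mul_le_mul_of_nonneg_right (le_max_right _ _) (Real.exp_pos _).le
      | cons b w =>
        cases b
        · exact (h2 w).trans (mul_le_mul_of_nonneg_right
            ((le_max_right _ _).trans (le_max_left _ _)) (Real.exp_pos _).le)
        · exact (h1 w).trans (mul_le_mul_of_nonneg_right
            ((le_max_left _ _).trans (le_max_left _ _)) (Real.exp_pos _).le)

end SF
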